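import Pool.Agent.H240R3.WT.Stmts

set_option autoImplicit false

namespace Pool.Agent.H622R3.WT

open Pool.Agent.H240R3.WT

theorem taskE : TaskE := by
  refine ⟨⟨14, ⊤, ⊤⟩, ?_⟩
  rintro n ⟨G, ⟨φ, hφ⟩, f, hf, hred, hblue⟩
  let ψ : Fin 14 → Fin 12 := fun i => Sum.elim (fun a : Fin 11 => a.castSucc) (fun _ => Fin.last 11)
    (φ (f i))
  obtain ⟨i, j, hij, hψ⟩ := Fintype.exists_ne_map_eq_of_card_lt ψ (by simp)
  have hfij : f i ≠ f j := fun h => hij (hf h)
  have hr : G.red.Adj (f i) (f j) := hred i j (by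
    show (⊤ : SimpleGraph (Fin 14)).Adj i j
    exact hij)
  have hb : G.blue.Adj (f i) (f j) := hblue i j (by
    show (⊤ : SimpleGraph (Fin 14)).Adj i j
    exact hij)
  obtain ⟨h1, h2⟩ := hφ (f i) (f j) hfij
  by_cases he : φ (f i) = φ (f j)
  · have h3 := h1 he
    cases hc : (T n).vc (φ (f i)) with
    | red => rw [hc] at h3; exact h3.2 hb
    | blue => rw [hc] at h3; exact h3.1 hr
    | white => rw [hc] at h3; exact h3.1 hr
  · have h3 := h2 he
    have h4 : Sum.elim (fun a : Fin 11 => a.castSucc) (fun _ => Fin.last 11) (φ (f i)) =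
      Sum.elim (fun a : Fin 11 => a.castSucc) (fun _ => Fin.last 11) (φ (f j)) := hψ
    rcases ha : φ (f i) with a | k
    · rcases hb' : φ (f j) with b | l
      · rw [ha, hb'] at h4 he
        simp only [Sum.elim_inl] at h4
        exact he (congrArg Sum.inl (Fin.castSucc_injective 11 h4))
      · rw [ha, hb'] at h4
        simp only [Sum.elim_inl, Sum.elim_inr] at h4
        exact absurd h4 (Fin.castSucc_lt_last a).ne
    · rcases hb' : φ (f j) with b | l
      · rw [ha, hb'] at h4
        simp only [Sum.elim_inl, Sum.elim_inr] at h4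
        exact absurd h4.symm (Fin.castSucc_lt_last b).ne
      · rw [ha, hb'] at h3
        have h5 : (T n).ec (Sum.inr k) (Sum.inr l) = chainEC k.val l.val := rfl
        rw [h5] at h3
        unfold chainEC at h3
        split_ifs at h3
        · exact h3.1 hr
        · exact h3.2 hb

end Pool.Agent.H622R3.WT
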